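import Pool.Agent.Helper324_LP.Fin

/-!
# One-dimensional continua without computable presentation (MP_f0c992_lc, Q1 and Q2)

Sets of natural numbers are given by their characteristic sequences `ℕ → Bool`.
-/

set_option autoImplicit false

namespace Pool.Agent.Results.MP_f0c992_lc.OneDimContinuum

/-- The characteristic function of the set with characteristic sequence `A`, as an oracle. -/
def chi (A : ℕ → Bool) : ℕ →. ℕ := fun n => Part.some (A n).toNat

/-- Turing reducibility of sets of natural numbers. -/
def TLe (A B : ℕ → Bool) : Prop := TuringReducible (chi A) (chi B)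

/-- The `e`-th set that is computably enumerable relative to `A`: all `n` such that for some `k`
the `e`-th program halts on the input consisting of `(A 0, ..., A (k-1))` and `n`. -/
def WE (A : ℕ → Bool) (e : ℕ) : Set ℕ :=
  {n | ∃ k : ℕ, ((Denumerable.ofNat Nat.Partrec.Code e).eval
    (Encodable.encode ((List.range k).map A, n))).Dom}

open Classical in
/-- The Turing jump of `A`: all `e` that belong to the `e`-th set computably enumerable
relative to `A`. -/
noncomputable def jump (A : ℕ → Bool) : ℕ → Bool := fun e => decide (e ∈ WE A e)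

/-- The empty oracle. -/
def zero : ℕ → Bool := fun _ => false

/-- The Turing degree of `D` is low_n: the `n`-th jumps of `D` and of the empty set are Turing
equivalent. -/
def LowN (n : ℕ) (D : ℕ → Bool) : Prop :=
  TLe (jump^[n] D) (jump^[n] zero) ∧ TLe (jump^[n] zero) (jump^[n] D)

/-- The total function `f` is computable with oracle `D`. -/
def CompIn (D : ℕ → Bool) (f : ℕ → ℕ) : Prop :=
  TuringReducible (fun n => Part.some (f n)) (chi D)

/-- The nonnegative rational number with code `u`. -/
noncomputable def ratVal (u : ℕ) : ℝ := (u.unpair.1 : ℝ) / ((u.unpair.2 : ℝ) + 1)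

/-- The space `X` has a `D`-computable presentation: a complete metric compatible with the
topology, a dense sequence `x`, and a `D`-computable function which sends `(i, j, n)` to a rational
number within `2 ^ (-n)` of the distance of `x i` and `x j`. -/
def Presented (D : ℕ → Bool) (X : Type) [t : TopologicalSpace X] : Prop :=
  ∃ m : MetricSpace X, m.toPseudoMetricSpace.toUniformSpace.toTopologicalSpace = t ∧
    @CompleteSpace X m.toPseudoMetricSpace.toUniformSpace ∧
    ∃ x : ℕ → X, DenseRange x ∧ ∃ f : ℕ → ℕ, CompIn D f ∧
      ∀ i j n : ℕ, |m.dist (x i) (x j) - ratVal (f (Nat.pair i (Nat.pair j n)))| ≤ (1 / 2 : ℝ) ^ n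

/-- The covering dimension of `X` is at most `m`: every finite open cover has a finite open
refinement such that every point is in at most `m + 1` of its members. -/
def DimLE (X : Type) [TopologicalSpace X] (m : ℕ) : Prop :=
  ∀ (ι : Type) [Finite ι] (U : ι → Set X), (∀ i, IsOpen (U i)) → (⋃ i, U i) = Set.univ →
    ∃ (κ : Type) (_ : Finite κ) (V : κ → Set X), (∀ k, IsOpen (V k)) ∧ (⋃ k, V k) = Set.univ ∧
      (∀ k, ∃ i, V k ⊆ U i) ∧ ∀ x, Set.ncard {k | x ∈ V k} ≤ m + 1

/-- For every oracle `D` which is not low there is a compact connected space of covering dimension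
at most one which has a `D`-computable presentation, but which is not homeomorphic to any space
with a computable presentation; and there is an oracle which is not low, but low_n for every
`n ≥ 2`, in particular low_4. -/
theorem result :
    (∀ D : ℕ → Bool, ¬ LowN 1 D →
      ∃ (X : Type) (_ : TopologicalSpace X), CompactSpace X ∧ ConnectedSpace X ∧ DimLE X 1 ∧
        Presented D X ∧
        ∀ (Y : Type) [TopologicalSpace Y], Presented zero Y → IsEmpty (X ≃ₜ Y)) ∧
    ∃ D : ℕ → Bool, ¬ LowN 1 D ∧ ∀ n, 2 ≤ n → LowN n D := by
  constructor
  · intro D hD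
    have h1 : ¬ Pool.Agent.Helper227.TLe (Pool.Agent.Helper227.jump D)
        (Pool.Agent.Helper227.jump Pool.Agent.W952.LP.zero) := fun h => hD
      ⟨h, Pool.Agent.Helper324_LP.iter_mono (Pool.Agent.Helper324_LP.zero_tLe D) 1⟩
    exact Pool.Agent.Helper324_LP.fin D h1
  · obtain ⟨D, hD1, hD2⟩ := Pool.Agent.Helper324_LP.degree
    exact ⟨D, fun h => hD1 h.1, hD2⟩

end Pool.Agent.Results.MP_f0c992_lc.OneDimContinuum
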